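import Pool.Agent.H52.CA.Sys

/-!
# The braid automorphisms of the free group with the basis `y 0, y 1, …`

`be i` is the automorphism `y (i+1) ↦ y i`, `y i ↦ (y i)⁻¹ y (i+1) y i`.
-/

set_option autoImplicit false

namespace Pool.Agent.H52.CA

/-- the free group -/
abbrev FN : Type := FreeGroup ℕ

/-- the basis -/
def ya (i : ℕ) : FN := FreeGroup.of i

/-- the images of the basis elements -/
def bv (i j : ℕ) : FN := if j = i + 1 then ya i else if j = i then (ya i)⁻¹ * ya (i + 1) * ya i else ya j

/-- the images of the basis elements under the inverse -/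
def bw (i j : ℕ) : FN := if j = i then ya (i + 1) else if j = i + 1 then ya (i + 1) * ya i * (ya (i + 1))⁻¹ else ya j

/-- the homomorphism -/
def bf (i : ℕ) : FN →* FN := FreeGroup.lift (bv i)

/-- the inverse -/
def bg (i : ℕ) : FN →* FN := FreeGroup.lift (bw i)

theorem bf_ya (i j : ℕ) : bf i (ya j) = bv i j := FreeGroup.lift_apply_of

theorem bg_ya (i j : ℕ) : bg i (ya j) = bw i j := FreeGroup.lift_apply_of

theorem bv_succ (i : ℕ) : bv i (i + 1) = ya i := if_pos rfl

theorem bv_self (i : ℕ) : bv i i = (ya i)⁻¹ * ya (i + 1) * ya i := by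
  rw [bv, if_neg (by omega), if_pos rfl]

theorem bv_ne {i j : ℕ} (h1 : j ≠ i) (h2 : j ≠ i + 1) : bv i j = ya j := by
  rw [bv, if_neg h2, if_neg h1]

theorem bw_self (i : ℕ) : bw i i = ya (i + 1) := if_pos rfl

theorem bw_succ (i : ℕ) : bw i (i + 1) = ya (i + 1) * ya i * (ya (i + 1))⁻¹ := by
  rw [bw, if_neg (by omega), if_pos rfl]

theorem bw_ne {i j : ℕ} (h1 : j ≠ i) (h2 : j ≠ i + 1) : bw i j = ya j := by
  rw [bw, if_neg h1, if_neg h2]

/-- the automorphism -/
def be (i : ℕ) : MulAut FN :=
  MonoidHom.toMulEquiv (bf i) (bg i)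
    (FreeGroup.ext_hom _ _ fun j => by
      change bg i (bf i (ya j)) = ya j
      rw [bf_ya]
      by_cases h1 : j = i
      · rw [h1, bv_self, map_mul, map_mul, map_inv, bg_ya, bg_ya, bw_self, bw_succ]
        group
      · by_cases h2 : j = i + 1
        · rw [h2, bv_succ, bg_ya, bw_self]
        · rw [bv_ne h1 h2, bg_ya, bw_ne h1 h2])
    (FreeGroup.ext_hom _ _ fun j => by
      change bf i (bg i (ya j)) = ya j
      rw [bg_ya]
      by_cases h1 : j = i
      · rw [h1, bw_self, bf_ya, bv_succ]
      · by_cases h2 : j = i + 1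
        · rw [h2, bw_succ, map_mul, map_mul, map_inv, bf_ya, bf_ya, bv_self, bv_succ]
          group
        · rw [bw_ne h1 h2, bf_ya, bv_ne h1 h2])

theorem be_ya (i j : ℕ) : be i (ya j) = bv i j := bf_ya i j

theorem be_ext {f g : MulAut FN} (h : ∀ j, f (ya j) = g (ya j)) : f = g := by
  have h1 : f.toMonoidHom = g.toMonoidHom := FreeGroup.ext_hom _ _ h
  ext x
  exact DFunLike.congr_fun h1 x

theorem be_co {i j : ℕ} (h : i + 2 ≤ j) : be i * be j = be j * be i := by
  refine be_ext fun k => ?_
  rw [MulAut.mul_apply, MulAut.mul_apply, be_ya, be_ya]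
  by_cases h1 : k = i
  · rw [h1, bv_self, bv_ne (i := j) (by omega) (by omega)]
    simp only [map_mul, map_inv, be_ya]
    rw [bv_self, bv_ne (i := j) (by omega) (by omega), bv_ne (i := j) (by omega) (by omega)]
  by_cases h2 : k = i + 1
  · rw [h2, bv_succ, bv_ne (i := j) (by omega) (by omega), be_ya, be_ya, bv_succ, bv_ne (i := j) (by omega) (by omega)]
  rw [bv_ne (i := i) h1 h2]
  by_cases h3 : k = j
  · rw [h3, bv_self]
    simp only [map_mul, map_inv, be_ya]
    rw [bv_self, bv_ne (i := i) (by omega) (by omega), bv_ne (i := i) (by omega) (by omega)]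
  by_cases h4 : k = j + 1
  · rw [h4, bv_succ, be_ya, be_ya, bv_succ, bv_ne (i := i) (by omega) (by omega)]
  rw [bv_ne (i := j) h3 h4, be_ya, be_ya, bv_ne (i := i) h1 h2, bv_ne (i := j) h3 h4]

theorem be_br (i : ℕ) : be i * be (i + 1) * be i = be (i + 1) * be i * be (i + 1) := by
  refine be_ext fun k => ?_
  simp only [MulAut.mul_apply]
  by_cases h1 : k = i
  · rw [h1]
    simp only [be_ya, bv_self, bv_succ, map_mul, map_inv, bv_ne (i := i + 1) (j := i) (by omega) (by omega),
      bv_ne (i := i) (j := i + 1 + 1) (by omega) (by omega)]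
    group
  by_cases h2 : k = i + 1
  · rw [h2]
    simp only [be_ya, bv_self, bv_succ, map_mul, map_inv, bv_ne (i := i + 1) (j := i) (by omega) (by omega),
      bv_ne (i := i) (j := i + 1 + 1) (by omega) (by omega)]
  by_cases h3 : k = i + 1 + 1
  · rw [h3]
    simp only [be_ya, bv_succ, bv_ne (i := i + 1) (j := i) (by omega) (by omega),
      bv_ne (i := i) (j := i + 1 + 1) (by omega) (by omega)]
  simp only [be_ya, bv_ne h1 h2, bv_ne h2 h3]

/-- the relation of type `B` for the square -/
theorem sq4 {G : Type*} [Group G] {s u : G} (h : s * u * s = u * s * u) :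
    (u * u) * s * (u * u) * s = s * (u * u) * s * (u * u) := by
  calc (u * u) * s * (u * u) * s = u * (u * s * u) * u * s := by group
    _ = u * (s * u * s) * u * s := by rw [h]
    _ = (u * s * u) * (s * u * s) := by group
    _ = (s * u * s) * (u * s * u) := by rw [h]
    _ = s * u * (s * u * s) * u := by group
    _ = s * u * (u * s * u) * u := by rw [h]
    _ = _ := by group

/-- the automorphisms satisfy the relations of type `B` -/
theorem be_sys (n : ℕ) : Sys n be (be (n + 1) * be (n + 1)) where
  br i _ := be_br i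
  co i j h _ := be_co h
  tb := sq4 (be_br n)
  tc i hi := by
    have h1 : Commute (be (n + 1)) (be i) := (be_co (by omega)).symm
    exact (h1.mul_left h1).eq

end Pool.Agent.H52.CA
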