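import Pool.Agent.H52.CA.Bet
import Pool.Agent.H10.BT.Ax
import Pool.Agent.H10.DT.Fk

/-!
# Artin groups of affine type `C`

`cmCt m` is the path `0, …, m + 3`, the labels of `0, 1` and of `m + 2, m + 3` are `4`. The Artin group is a subgroup of the
semidirect product of a free group and the Artin group of type `B`.
-/

set_option autoImplicit false

namespace Pool.Agent.H52.CA

open Pool.Agent.H52.PAG Pool.Agent.H98.DT Pool.Agent.H10.BT Pool.Agent.H98.FJ Pool.Agent.H10.DT

/-- the labels -/
def lC (m k l : ℕ) : ℕ :=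
  if k = l then 1 else if k + l = 1 ∨ k + l = 2 * m + 5 then 4 else if k + 1 = l ∨ l + 1 = k then 3 else 2

/-- the diagram of affine type `C` -/
def cmCt (m : ℕ) : CoxeterMatrix (Fin (m + 4)) where
  M := Matrix.of fun k l => lC m k l
  isSymm := by
    ext k l
    simp only [Matrix.transpose_apply, Matrix.of_apply, lC]
    split_ifs <;> omega
  diagonal k := by simp [lC]
  off_diagonal k l h := by
    have h1 : k.val ≠ l.val := fun h1 => h (Fin.ext h1)
    simp only [Matrix.of_apply, lC, if_neg h1]
    split_ifs <;> omega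

theorem cmCt_apply (m : ℕ) (k l : Fin (m + 4)) : cmCt m k l = lC m k l := rfl

section

variable {G : Type*} [Group G]

/-- the images of the generators -/
def fB (m : ℕ) (c : ℕ → G) (τ : G) (k : ℕ) : G := if k = 0 then τ else c (m + 2 - k)

theorem fB_alt {m : ℕ} {c : ℕ → G} {τ : G} (h : Sys (m + 1) c τ) (k l : ℕ) (hk : k ≤ m + 2) (hl : l ≤ m + 2) :
    alt (fB m c τ k) (fB m c τ l) (lB k l) = alt (fB m c τ l) (fB m c τ k) (lB k l) := by
  wlog hkl : k ≤ l generalizing k l with H
  · rw [lB_symm]
    exact (H l k hl hk (by omega)).symm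
  rcases Nat.eq_or_lt_of_le hkl with rfl | hlt
  · rfl
  rcases Nat.eq_zero_or_pos k with rfl | hk0
  · rcases Nat.eq_or_lt_of_le (show 1 ≤ l from hlt) with h1 | h1
    · rw [← h1]
      have e1 : lB 0 1 = 4 := rfl
      have e2 : fB m c τ 0 = τ := rfl
      have e3 : fB m c τ 1 = c (m + 1) := by
        rw [fB, if_neg one_ne_zero]
        rfl
      rw [e1, e2, e3, alt_four, alt_four]
      exact h.tb
    · have e1 : lB 0 l = 2 := by
        rw [lB, if_neg (by omega), if_neg (by omega), if_neg (by omega)]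
      have e2 : fB m c τ 0 = τ := rfl
      have e3 : fB m c τ l = c (m + 2 - l) := by rw [fB, if_neg (by omega)]
      rw [e1, e2, e3, alt_two, alt_two]
      exact h.tc _ (by omega)
  · have e2 : fB m c τ k = c (m + 2 - k) := by rw [fB, if_neg (by omega)]
    have e3 : fB m c τ l = c (m + 2 - l) := by rw [fB, if_neg (by omega)]
    rw [e2, e3]
    rcases Nat.eq_or_lt_of_le (show k + 1 ≤ l from hlt) with h1 | h1
    · have e1 : lB k l = 3 := by
        simp only [lB]
        split_ifs <;> omega
      rw [e1, alt_three, alt_three]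
      have e4 : m + 2 - k = (m + 2 - l) + 1 := by omega
      rw [e4]
      exact (h.br (m + 2 - l) (by omega)).symm
    · have e1 : lB k l = 2 := by
        simp only [lB]
        split_ifs <;> omega
      rw [e1, alt_two, alt_two]
      exact (h.co (m + 2 - l) (m + 2 - k) (by omega) (by omega)).symm

/-- homomorphisms from the group of type `B` -/
def liftB {m : ℕ} {c : ℕ → G} {τ : G} (h : Sys (m + 1) c τ) : Art (cmBf m) →* G :=
  lift (fun k => fB m c τ k) fun k l _ => fB_alt h k l (by omega) (by omega)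

/-- the images of the generators -/
def fC (m : ℕ) (c : ℕ → G) (τ t : G) (k : ℕ) : G := if k = m + 3 then t else fB m c τ k

theorem fC_alt {m : ℕ} {c : ℕ → G} {τ t : G} (h : SysC (m + 1) c τ t) (k l : ℕ) (hk : k ≤ m + 3) (hl : l ≤ m + 3) :
    alt (fC m c τ t k) (fC m c τ t l) (lC m k l) = alt (fC m c τ t l) (fC m c τ t k) (lC m k l) := by
  wlog hkl : k ≤ l generalizing k l with H
  · have e : lC m k l = lC m l k := by
      simp only [lC]
      split_ifs <;> omega
    rw [e]
    exact (H l k hl hk (by omega)).symm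
  rcases Nat.eq_or_lt_of_le hkl with rfl | hlt
  · rfl
  rcases Nat.eq_or_lt_of_le hl with h1 | h1
  · have e2 : fC m c τ t k = fB m c τ k := by rw [fC, if_neg (by omega)]
    have e3 : fC m c τ t l = t := by rw [fC, if_pos h1]
    rw [e2, e3]
    rcases Nat.eq_zero_or_pos k with rfl | hk0
    · have e1 : lC m 0 l = 2 := by
        rw [lC, if_neg (by omega), if_neg (by omega), if_neg (by omega)]
      rw [e1, alt_two, alt_two]
      exact h.tt.symm
    · have e4 : fB m c τ k = c (m + 2 - k) := by rw [fB, if_neg (by omega)]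
      rw [e4]
      rcases Nat.eq_or_lt_of_le (show k ≤ m + 2 by omega) with h2 | h2
      · have e1 : lC m k l = 4 := by
          simp only [lC]
          split_ifs <;> omega
        rw [e1, alt_four, alt_four, h2, Nat.sub_self]
        exact h.t4.symm
      · have e1 : lC m k l = 2 := by
          simp only [lC]
          split_ifs <;> omega
        rw [e1, alt_two, alt_two]
        exact (h.tco _ (by omega) (by omega)).symm
  · have e2 : fC m c τ t k = fB m c τ k := by rw [fC, if_neg (by omega)]
    have e3 : fC m c τ t l = fB m c τ l := by rw [fC, if_neg (by omega)]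
    have e1 : lC m k l = lB k l := by
      simp only [lC, lB]
      split_ifs <;> omega
    rw [e1, e2, e3]
    exact fB_alt h.toSys k l (by omega) (by omega)

/-- homomorphisms from the group of affine type `C` -/
def liftC {m : ℕ} {c : ℕ → G} {τ t : G} (h : SysC (m + 1) c τ t) : Art (cmCt m) →* G :=
  lift (fun k => fC m c τ t k) fun k l _ => fC_alt h k l (by omega) (by omega)

end

/-- the generators of the group of type `B` as functions on the natural numbers -/
def gB (m : ℕ) (i : ℕ) : Art (cmBf m) := gen (cmBf m) ⟨m + 2 - i, by omega⟩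

/-- the generator `τ` -/
def tB (m : ℕ) : Art (cmBf m) := gen (cmBf m) 0

theorem sysB (m : ℕ) : Sys (m + 1) (gB m) (tB m) where
  br i hi := by
    have h1 := gen_rel (M := cmBf m) (i := ⟨m + 2 - i, by omega⟩) (j := ⟨m + 2 - (i + 1), by omega⟩)
    have h2 : cmBf m ⟨m + 2 - i, by omega⟩ ⟨m + 2 - (i + 1), by omega⟩ = 3 := by
      rw [cmBf_apply]
      simp only [lB]
      split_ifs <;> omega
    rw [h2, alt_three, alt_three] at h1
    exact h1 (by decide)
  co i j h hj := by
    have h1 := gen_rel (M := cmBf m) (i := ⟨m + 2 - i, by omega⟩) (j := ⟨m + 2 - j, by omega⟩)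
    have h2 : cmBf m ⟨m + 2 - i, by omega⟩ ⟨m + 2 - j, by omega⟩ = 2 := by
      rw [cmBf_apply]
      simp only [lB]
      split_ifs <;> omega
    rw [h2, alt_two, alt_two] at h1
    exact h1 (by decide)
  tb := by
    have h1 := gen_rel (M := cmBf m) (i := 0) (j := ⟨m + 2 - (m + 1), by omega⟩)
    have h2 : cmBf m 0 ⟨m + 2 - (m + 1), by omega⟩ = 4 := by
      rw [cmBf_apply]
      change lB 0 (m + 2 - (m + 1)) = 4
      simp only [lB]
      split_ifs <;> omega
    rw [h2, alt_four, alt_four] at h1
    exact h1 (by decide)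
  tc i hi := by
    have h1 := gen_rel (M := cmBf m) (i := 0) (j := ⟨m + 2 - i, by omega⟩)
    have h2 : cmBf m 0 ⟨m + 2 - i, by omega⟩ = 2 := by
      rw [cmBf_apply]
      change lB 0 (m + 2 - i) = 2
      rw [lB, if_neg (by omega), if_neg (by omega), if_neg (by omega)]
    rw [h2, alt_two, alt_two] at h1
    exact h1 (by decide)

/-- the generators of the group of affine type `C` -/
def gC (m : ℕ) (i : ℕ) : Art (cmCt m) := gen (cmCt m) ⟨m + 2 - i, by omega⟩

theorem sysC (m : ℕ) : SysC (m + 1) (gC m) (gen (cmCt m) 0) (gen (cmCt m) ⟨m + 3, by omega⟩) where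
  br i hi := by
    have h1 := gen_rel (M := cmCt m) (i := ⟨m + 2 - i, by omega⟩) (j := ⟨m + 2 - (i + 1), by omega⟩)
    have h2 : cmCt m ⟨m + 2 - i, by omega⟩ ⟨m + 2 - (i + 1), by omega⟩ = 3 := by
      rw [cmCt_apply]
      simp only [lC]
      split_ifs <;> omega
    rw [h2, alt_three, alt_three] at h1
    exact h1 (by decide)
  co i j h hj := by
    have h1 := gen_rel (M := cmCt m) (i := ⟨m + 2 - i, by omega⟩) (j := ⟨m + 2 - j, by omega⟩)
    have h2 : cmCt m ⟨m + 2 - i, by omega⟩ ⟨m + 2 - j, by omega⟩ = 2 := by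
      rw [cmCt_apply]
      simp only [lC]
      split_ifs <;> omega
    rw [h2, alt_two, alt_two] at h1
    exact h1 (by decide)
  tb := by
    have h1 := gen_rel (M := cmCt m) (i := 0) (j := ⟨m + 2 - (m + 1), by omega⟩)
    have h2 : cmCt m 0 ⟨m + 2 - (m + 1), by omega⟩ = 4 := by
      rw [cmCt_apply]
      change lC m 0 (m + 2 - (m + 1)) = 4
      simp only [lC]
      split_ifs <;> omega
    rw [h2, alt_four, alt_four] at h1
    exact h1 (by decide)
  tc i hi := by
    have h1 := gen_rel (M := cmCt m) (i := 0) (j := ⟨m + 2 - i, by omega⟩)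
    have h2 : cmCt m 0 ⟨m + 2 - i, by omega⟩ = 2 := by
      rw [cmCt_apply]
      change lC m 0 (m + 2 - i) = 2
      rw [lC, if_neg (by omega), if_neg (by omega), if_neg (by omega)]
    rw [h2, alt_two, alt_two] at h1
    exact h1 (by decide)
  t4 := by
    have h1 := gen_rel (M := cmCt m) (i := ⟨m + 3, by omega⟩) (j := ⟨m + 2 - 0, by omega⟩)
    have h2 : cmCt m ⟨m + 3, by omega⟩ ⟨m + 2 - 0, by omega⟩ = 4 := by
      rw [cmCt_apply]
      simp only [lC]
      split_ifs <;> omega
    rw [h2, alt_four, alt_four] at h1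
    exact h1 (by decide)
  tco i hi hin := by
    have h1 := gen_rel (M := cmCt m) (i := ⟨m + 3, by omega⟩) (j := ⟨m + 2 - i, by omega⟩)
    have h2 : cmCt m ⟨m + 3, by omega⟩ ⟨m + 2 - i, by omega⟩ = 2 := by
      rw [cmCt_apply]
      simp only [lC]
      split_ifs <;> omega
    rw [h2, alt_two, alt_two] at h1
    exact h1 (by decide)
  tt := by
    have h1 := gen_rel (M := cmCt m) (i := ⟨m + 3, by omega⟩) (j := 0)
    have h2 : cmCt m ⟨m + 3, by omega⟩ 0 = 2 := by
      rw [cmCt_apply]
      change lC m (m + 3) 0 = 2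
      rw [lC, if_neg (by omega), if_neg (by omega), if_neg (by omega)]
    rw [h2, alt_two, alt_two] at h1
    exact h1 (by decide)

/-- the action of the group of type `B` on the free group -/
def acB (m : ℕ) : Art (cmBf m) →* MulAut FN := liftB (be_sys (m + 1))

theorem acB_g (m i : ℕ) (hi : i ≤ m + 1) : acB m (gB m i) = be i := by
  rw [acB, liftB, gB, lift_gen]
  change fB m be _ (m + 2 - i) = be i
  rw [fB, if_neg (by omega)]
  congr 1
  omega

theorem acB_t (m : ℕ) : acB m (tB m) = be (m + 2) * be (m + 2) := by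
  rw [acB, liftB, tB, lift_gen]
  rfl

/-- the semidirect product -/
abbrev SC (m : ℕ) : Type := FN ⋊[acB m] Art (cmBf m)

theorem inr_inl (m : ℕ) (g : Art (cmBf m)) (x : FN) :
    (SemidirectProduct.inr g : SC m) * SemidirectProduct.inl x = SemidirectProduct.inl (acB m g x) * SemidirectProduct.inr g := by
  rw [SemidirectProduct.inl_aut]
  group
  simp

/-- the images of the generators in the semidirect product satisfy the relations -/
theorem sysSC (m : ℕ) : SysC (m + 1) (fun i => (SemidirectProduct.inr (gB m i) : SC m)) (SemidirectProduct.inr (tB m))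
    (SemidirectProduct.inl (ya 0)) where
  br i hi := by
    rw [← map_mul, ← map_mul, ← map_mul, ← map_mul, (sysB m).br i hi]
  co i j h hj := by
    rw [← map_mul, ← map_mul, (sysB m).co i j h hj]
  tb := by
    simp only [← map_mul]
    rw [(sysB m).tb]
  tc i hi := by
    rw [← map_mul, ← map_mul, (sysB m).tc i hi]
  t4 := by
    have h1 : ∀ x, (SemidirectProduct.inr (gB m 0) : SC m) * SemidirectProduct.inl x =
        SemidirectProduct.inl (be 0 x) * SemidirectProduct.inr (gB m 0) := fun x => by
      rw [inr_inl, acB_g m 0 (by omega)]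
    have h2 : (be 0 (ya 0) : FN) = (ya 0)⁻¹ * ya 1 * ya 0 := by rw [be_ya, bv_self]
    have h3 : (be 0 (be 0 (ya 0)) : FN) = ((ya 0)⁻¹ * ya 1 * ya 0)⁻¹ * ya 0 * ((ya 0)⁻¹ * ya 1 * ya 0) := by
      rw [h2, map_mul, map_mul, map_inv, h2, be_ya]
      rw [show bv 0 1 = ya 0 from bv_succ 0]
    have h4 : ya 0 * be 0 (ya 0) = be 0 (ya 0) * be 0 (be 0 (ya 0)) := by
      rw [h3, h2]
      group
    set r : SC m := SemidirectProduct.inr (gB m 0)
    calc (SemidirectProduct.inl (ya 0) : SC m) * r * SemidirectProduct.inl (ya 0) * r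
        = SemidirectProduct.inl (ya 0) * (r * SemidirectProduct.inl (ya 0)) * r := by group
      _ = (SemidirectProduct.inl (ya 0) * SemidirectProduct.inl (be 0 (ya 0))) * r * r := by
        rw [h1]
        group
      _ = SemidirectProduct.inl (be 0 (ya 0) * be 0 (be 0 (ya 0))) * r * r := by rw [← map_mul, h4]
      _ = SemidirectProduct.inl (be 0 (ya 0)) * (SemidirectProduct.inl (be 0 (be 0 (ya 0))) * r) * r := by
        rw [map_mul]
        group
      _ = SemidirectProduct.inl (be 0 (ya 0)) * (r * SemidirectProduct.inl (be 0 (ya 0))) * r := by rw [h1]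
      _ = (SemidirectProduct.inl (be 0 (ya 0)) * r) * (SemidirectProduct.inl (be 0 (ya 0)) * r) := by group
      _ = (r * SemidirectProduct.inl (ya 0)) * (r * SemidirectProduct.inl (ya 0)) := by rw [h1]
      _ = _ := by group
  tco i hi hin := by
    rw [inr_inl, acB_g m i (by omega), be_ya, bv_ne (by omega) (by omega)]
  tt := by
    rw [inr_inl, acB_t, MulAut.mul_apply, be_ya, bv_ne (by omega) (by omega), be_ya, bv_ne (by omega) (by omega)]

/-- the homomorphism from the group of affine type `C` to the semidirect product -/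
def phC (m : ℕ) : Art (cmCt m) →* SC m := liftC (sysSC m)

section Ret

variable {G : Type*} [Group G] {m : ℕ} {c : ℕ → G} {τ t : G}

/-- the images of the basis of the free group -/
def vv (n : ℕ) (c : ℕ → G) (τ t : G) (j : ℕ) : G :=
  if j ≤ n + 1 then yy c t j
  else if j = n + 2 then (ee n c τ (n + 1))⁻¹ * (pp c t (n + 1))⁻¹
  else 1

/-- the homomorphism from the free group -/
def vf (n : ℕ) (c : ℕ → G) (τ t : G) : FN →* G := FreeGroup.lift (vv n c τ t)

theorem vf_ya (n : ℕ) (c : ℕ → G) (τ t : G) (j : ℕ) : vf n c τ t (ya j) = vv n c τ t j := FreeGroup.lift_apply_of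

theorem vv_le {n : ℕ} (c : ℕ → G) (τ t : G) {j : ℕ} (h : j ≤ n + 1) : vv n c τ t j = yy c t j := if_pos h

theorem vv_two (n : ℕ) (c : ℕ → G) (τ t : G) : vv n c τ t (n + 2) = (ee n c τ (n + 1))⁻¹ * (pp c t (n + 1))⁻¹ := by
  rw [vv, if_neg (by omega), if_pos rfl]

theorem vv_gt {n : ℕ} (c : ℕ → G) (τ t : G) {j : ℕ} (h : n + 2 < j) : vv n c τ t j = 1 := by
  rw [vv, if_neg (by omega), if_neg (by omega)]

theorem vf_c {n : ℕ} (h : SysC n c τ t) {i : ℕ} (hi : i ≤ n) (x : FN) :
    vf n c τ t (be i x) = c i * vf n c τ t x * (c i)⁻¹ := by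
  have h1 : (vf n c τ t).comp (be i).toMonoidHom = (MulAut.conj (c i)).toMonoidHom.comp (vf n c τ t) := by
    refine FreeGroup.ext_hom _ _ fun j => ?_
    change vf n c τ t (be i (ya j)) = c i * vf n c τ t (ya j) * (c i)⁻¹
    rw [be_ya, vf_ya]
    by_cases h2 : j = i
    · rw [h2, bv_self, map_mul, map_mul, map_inv, vf_ya, vf_ya, vv_le c τ t (by omega), vv_le c τ t (by omega)]
      exact (h.yy_b hi).symm
    by_cases h3 : j = i + 1
    · rw [h3, bv_succ, vf_ya, vv_le c τ t (by omega), vv_le c τ t (by omega)]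
      exact (conj_yy_succ c t i).symm
    rw [bv_ne h2 h3, vf_ya]
    have h4 : Commute (c i) (vv n c τ t j) := by
      rcases Nat.lt_or_ge (n + 1) j with h5 | h5
      · rcases Nat.eq_or_lt_of_le (show n + 2 ≤ j from h5) with h6 | h6
        · rw [← h6, vv_two]
          exact (h.toSys.cen_c hi).inv_right.mul_right (h.pp_c2 (by omega) le_rfl).inv_right
        · rw [vv_gt c τ t h6]
          exact Commute.one_right _
      · rw [vv_le c τ t h5]
        rcases Nat.lt_or_ge j i with h6 | h6
        · exact h.yy_c1 (by omega) hi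
        · exact h.yy_c2 (by omega) (by omega)
    rw [h4.eq]
    group
  exact DFunLike.congr_fun h1 x

theorem vf_t {n : ℕ} (h : SysC n c τ t) (x : FN) :
    vf n c τ t ((be (n + 1) * be (n + 1)) x) = τ * vf n c τ t x * τ⁻¹ := by
  have h1 : (vf n c τ t).comp (be (n + 1) * be (n + 1)).toMonoidHom =
      (MulAut.conj τ).toMonoidHom.comp (vf n c τ t) := by
    refine FreeGroup.ext_hom _ _ fun j => ?_
    change vf n c τ t (be (n + 1) (be (n + 1) (ya j))) = τ * vf n c τ t (ya j) * τ⁻¹
    have key := h.key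
    have hE : Commute τ (ee n c τ (n + 1)) := h.toSys.cen_tau
    have hP : Commute τ (pp c t n) := h.pp_tau le_rfl
    have hZ : vv n c τ t (n + 2) = (ee n c τ (n + 1))⁻¹ * (pp c t n)⁻¹ * (yy c t (n + 1))⁻¹ := by
      rw [vv_two]
      change (ee n c τ (n + 1))⁻¹ * (yy c t (n + 1) * pp c t n)⁻¹ = _
      group
    have hY : vv n c τ t (n + 1) = yy c t (n + 1) := vv_le c τ t le_rfl
    by_cases h2 : j = n + 1
    · rw [h2, be_ya, bv_self]
      simp only [map_mul, map_inv, be_ya, bv_self, bv_succ, vf_ya]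
      rw [hY, hZ, key]
      group
    by_cases h3 : j = n + 1 + 1
    · rw [h3, be_ya, bv_succ, be_ya, bv_self]
      simp only [map_mul, map_inv, vf_ya]
      rw [hY]
      have e1 : vv n c τ t (n + 1 + 1) = (ee n c τ (n + 1))⁻¹ * (pp c t n)⁻¹ * (yy c t (n + 1))⁻¹ := hZ
      rw [e1]
      have e2 : τ * ((ee n c τ (n + 1))⁻¹ * (pp c t n)⁻¹ * (yy c t (n + 1))⁻¹) * τ⁻¹ =
          (ee n c τ (n + 1))⁻¹ * (pp c t n)⁻¹ * (τ * yy c t (n + 1) * τ⁻¹)⁻¹ := by
        have e3 : τ * ((ee n c τ (n + 1))⁻¹ * (pp c t n)⁻¹) = (ee n c τ (n + 1))⁻¹ * (pp c t n)⁻¹ * τ :=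
          (hE.inv_right.mul_right hP.inv_right).eq
        calc τ * ((ee n c τ (n + 1))⁻¹ * (pp c t n)⁻¹ * (yy c t (n + 1))⁻¹) * τ⁻¹ =
            (τ * ((ee n c τ (n + 1))⁻¹ * (pp c t n)⁻¹)) * (yy c t (n + 1))⁻¹ * τ⁻¹ := by group
          _ = _ := by
            rw [e3]
            group
      rw [e2, key]
      group
    rw [be_ya, bv_ne h2 h3, be_ya, bv_ne h2 h3, vf_ya]
    have h4 : Commute τ (vv n c τ t j) := by
      rcases Nat.lt_or_ge n j with h5 | h5
      · rw [vv_gt c τ t (by omega)]
        exact Commute.one_right _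
      · rw [vv_le c τ t (by omega)]
        exact h.yy_tau h5
    rw [h4.eq]
    group
  exact DFunLike.congr_fun h1 x

end Ret

/-- the inclusion of the group of type `B` -/
def ibC (m : ℕ) : Art (cmBf m) →* Art (cmCt m) := liftB (sysC m).toSys

theorem ibC_g (m : ℕ) (k : Fin (m + 3)) : ibC m (gen (cmBf m) k) = gen (cmCt m) ⟨k, by omega⟩ := by
  rw [ibC, liftB, lift_gen]
  change fB m (gC m) (gen (cmCt m) 0) k = _
  rw [fB]
  split_ifs with h
  · congr 1
    exact Fin.ext h.symm
  · rw [gC]
    congr 1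
    refine Fin.ext ?_
    change m + 2 - (m + 2 - k.val) = k.val
    omega

/-- the retraction -/
def rhC (m : ℕ) : SC m →* Art (cmCt m) :=
  SemidirectProduct.lift (vf (m + 1) (gC m) (gen (cmCt m) 0) (gen (cmCt m) ⟨m + 3, by omega⟩)) (ibC m) (by
    intro g
    -- the elements for which the compatibility holds are a subgroup
    have key : ∀ g : Art (cmBf m), ∀ x : FN,
        vf (m + 1) (gC m) (gen (cmCt m) 0) (gen (cmCt m) ⟨m + 3, by omega⟩) (acB m g x) =
        ibC m g * vf (m + 1) (gC m) (gen (cmCt m) 0) (gen (cmCt m) ⟨m + 3, by omega⟩) x * (ibC m g)⁻¹ := by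
      have hgen : ∀ k : Fin (m + 3), ∀ x : FN,
          vf (m + 1) (gC m) (gen (cmCt m) 0) (gen (cmCt m) ⟨m + 3, by omega⟩) (acB m (gen (cmBf m) k) x) =
          ibC m (gen (cmBf m) k) * vf (m + 1) (gC m) (gen (cmCt m) 0) (gen (cmCt m) ⟨m + 3, by omega⟩) x *
            (ibC m (gen (cmBf m) k))⁻¹ := by
        intro k x
        rcases Nat.eq_zero_or_pos k.val with h0 | h0
        · have e1 : k = 0 := Fin.ext h0
          have e2 : ibC m (gen (cmBf m) 0) = gen (cmCt m) 0 := ibC_g m 0
          rw [e1, e2]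
          have e3 : acB m (gen (cmBf m) 0) = be (m + 2) * be (m + 2) := acB_t m
          rw [e3]
          exact vf_t (sysC m) x
        · have e1 : gen (cmBf m) k = gB m (m + 2 - k.val) := by
            rw [gB]
            congr 1
            refine Fin.ext ?_
            change k.val = m + 2 - (m + 2 - k.val)
            omega
          have e2 : ibC m (gen (cmBf m) k) = gC m (m + 2 - k.val) := by
            rw [ibC_g, gC]
            congr 1
            refine Fin.ext ?_
            change k.val = m + 2 - (m + 2 - k.val)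
            omega
          rw [e2, e1, acB_g m _ (by omega)]
          exact vf_c (sysC m) (by omega) x
      intro g
      refine art_induction (P := fun g => ∀ x : FN,
        vf (m + 1) (gC m) (gen (cmCt m) 0) (gen (cmCt m) ⟨m + 3, by omega⟩) (acB m g x) =
        ibC m g * vf (m + 1) (gC m) (gen (cmCt m) 0) (gen (cmCt m) ⟨m + 3, by omega⟩) x * (ibC m g)⁻¹)
        (fun x => by simp) (fun g k ih x => ?_) (fun g k ih x => ?_) g
      · rw [map_mul, MulAut.mul_apply, ih, hgen, map_mul]
        group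
      · rw [map_mul, MulAut.mul_apply, ih, map_mul, map_inv, map_inv]
        have h1 := hgen k ((acB m (gen (cmBf m) k))⁻¹ x)
        rw [MulAut.apply_inv_self] at h1
        rw [h1]
        group
    refine MonoidHom.ext fun x => ?_
    exact key g x)

theorem rhC_phC (m : ℕ) : (rhC m).comp (phC m) = MonoidHom.id _ := by
  refine art_ext fun k => ?_
  rw [MonoidHom.comp_apply, MonoidHom.id_apply, phC, liftC, lift_gen]
  rw [fC, fB]
  split_ifs with h1 h2
  · rw [rhC, SemidirectProduct.lift_inl, vf_ya, vv_le _ _ _ (by omega)]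
    change gen (cmCt m) _ = _
    congr 1
    exact Fin.ext h1.symm
  · rw [rhC, SemidirectProduct.lift_inr, tB, ibC_g]
    congr 1
    exact Fin.ext h2.symm
  · rw [rhC, SemidirectProduct.lift_inr, gB, ibC_g]
    congr 1
    refine Fin.ext ?_
    change m + 2 - (m + 2 - k.val) = k.val
    omega

theorem phC_inj (m : ℕ) : Function.Injective (phC m) := by
  intro x y h
  have h1 := congrArg (rhC m) h
  have h2 : ∀ z, rhC m (phC m z) = z := fun z => DFunLike.congr_fun (rhC_phC m) z
  rwa [h2, h2] at h1

/-- the Artin groups of affine type `C` are in the class if the Artin groups of type `B` are -/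
theorem art_cmCt_mem {C : (G : Type) → [Group G] → Prop} (hC : Inherits C) (hE : Extension C) (hF : FreeByZ C) (m : ℕ)
    (hB : C (Art (cmBf m))) : C (Art (cmCt m)) := by
  refine hC.of_injective (phC m) (phC_inj m) ?_
  refine fk hC hE hF (SC m) (Art (cmBf m)) SemidirectProduct.rightHom hB ?_
  rw [← SemidirectProduct.range_inl_eq_ker_rightHom]
  exact IsFreeGroup.ofMulEquiv (MonoidHom.ofInjective SemidirectProduct.inl_injective)

end Pool.Agent.H52.CA
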