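import Mathlib

/-!
# Identities for the Artin group of affine type `C`

`Sys n c τ` are the relations of type `B`: the path `c 0, …, c n, τ` where the label of `c n` and `τ` is `4`. `SysC n c τ t` are the
relations of affine type `C`: a further vertex `t` before `c 0`, the label of `t` and `c 0` is `4`.

`yy c t i` is the conjugate of `t` by `c 0 ⋯ c (i - 1)`, `pp` are the products of these elements; `jj`, `ee` are the Jucys-Murphy
elements `τ, c n τ c n, …` and their products; `ee (n + 1)` is central in the group of type `B`. The main identity is `key`.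
-/

set_option autoImplicit false

namespace Pool.Agent.H52.CA

variable {G : Type*} [Group G]

/-- the relations of type `B` -/
structure Sys (n : ℕ) (c : ℕ → G) (τ : G) : Prop where
  br : ∀ i, i + 1 ≤ n → c i * c (i + 1) * c i = c (i + 1) * c i * c (i + 1)
  co : ∀ i j, i + 2 ≤ j → j ≤ n → c i * c j = c j * c i
  tb : τ * c n * τ * c n = c n * τ * c n * τ
  tc : ∀ i, i < n → τ * c i = c i * τ

/-- the relations of affine type `C` -/
structure SysC (n : ℕ) (c : ℕ → G) (τ t : G) : Prop extends Sys n c τ where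
  t4 : t * c 0 * t * c 0 = c 0 * t * c 0 * t
  tco : ∀ i, 1 ≤ i → i ≤ n → t * c i = c i * t
  tt : t * τ = τ * t

/-- the conjugates of `t` -/
def yy (c : ℕ → G) (t : G) : ℕ → G
  | 0 => t
  | i + 1 => (c i)⁻¹ * yy c t i * c i

/-- the products of the conjugates -/
def pp (c : ℕ → G) (t : G) : ℕ → G
  | 0 => t
  | i + 1 => yy c t (i + 1) * pp c t i

/-- the elements `τ, c n τ c n, …` -/
def jj (n : ℕ) (c : ℕ → G) (τ : G) : ℕ → G
  | 0 => τ
  | k + 1 => c (n - k) * jj n c τ k * c (n - k)

/-- their products -/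
def ee (n : ℕ) (c : ℕ → G) (τ : G) : ℕ → G
  | 0 => τ
  | k + 1 => ee n c τ k * jj n c τ (k + 1)

theorem yy_succ (c : ℕ → G) (t : G) (i : ℕ) : yy c t (i + 1) = (c i)⁻¹ * yy c t i * c i := rfl

theorem conj_yy_succ (c : ℕ → G) (t : G) (i : ℕ) : c i * yy c t (i + 1) * (c i)⁻¹ = yy c t i := by
  rw [yy_succ]
  group

namespace Sys

variable {n : ℕ} {c : ℕ → G} {τ : G} (h : Sys n c τ)
include h

theorem com {i j : ℕ} (hij : i + 2 ≤ j) (hj : j ≤ n) : Commute (c i) (c j) := h.co i j hij hj

/-- (J1) -/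
theorem jj1 {j k : ℕ} (hk : k ≤ n) (hj : j < n - k) : Commute (c j) (jj n c τ k) := by
  induction k with
  | zero => exact (h.tc j (by omega)).symm
  | succ k ih =>
    have h1 : Commute (c j) (c (n - k)) := h.com (by omega) (by omega)
    exact (h1.mul_right (ih (by omega) (by omega))).mul_right h1

theorem braid {j : ℕ} (hj : j + 1 ≤ n) : c (j + 1) * c j * c (j + 1) = c j * c (j + 1) * c j := (h.br j hj).symm

/-- (J2): the generator commutes with the element two steps later -/
theorem jj2 {j k : ℕ} (hk : k ≤ n + 1) (hj : n + 2 ≤ j + k) (hjn : j ≤ n) : Commute (c j) (jj n c τ k) := by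
  induction k with
  | zero => omega
  | succ k ih =>
    rcases Nat.eq_or_lt_of_le hj with h1 | h1
    · -- the first case: `j = n - k + 1`
      obtain ⟨k, rfl⟩ : ∃ r, k = r + 1 := ⟨k - 1, by omega⟩
      have e1 : n - (k + 1) + 1 = n - k := by omega
      have e2 : j = n - k := by omega
      have h2 : c (n - (k + 1)) * c (n - k) * c (n - (k + 1)) = c (n - k) * c (n - (k + 1)) * c (n - k) := by
        have := h.br (n - (k + 1)) (by omega)
        rwa [e1] at this
      have h3 : Commute (c (n - (k + 1))) (jj n c τ k) := h.jj1 (by omega) (by omega)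
      rw [e2]
      change c (n - k) * (c (n - (k + 1)) * (c (n - k) * jj n c τ k * c (n - k)) * c (n - (k + 1))) =
        c (n - (k + 1)) * (c (n - k) * jj n c τ k * c (n - k)) * c (n - (k + 1)) * c (n - k)
      generalize c (n - k) = a at *
      generalize c (n - (k + 1)) = b at *
      generalize jj n c τ k = J at *
      calc a * (b * (a * J * a) * b) = (a * b * a) * J * (a * b) := by group
        _ = b * a * (b * J) * (a * b) := by
          rw [← h2]
          group
        _ = b * a * (J * b) * (a * b) := by rw [h3.eq]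
        _ = b * a * J * (b * a * b) := by group
        _ = b * a * J * (a * b * a) := by rw [h2]
        _ = b * (a * J * a) * b * a := by group
    · have h2 : Commute (c j) (c (n - k)) := (h.com (i := n - k) (j := j) (by omega) hjn).symm
      exact (h2.mul_right (ih (by omega) (by omega))).mul_right h2

/-- (J3) -/
theorem jj3 {k : ℕ} (hk : k ≤ n) : Commute (jj n c τ k) (jj n c τ (k + 1)) := by
  induction k with
  | zero =>
    change τ * (c (n - 0) * τ * c (n - 0)) = c (n - 0) * τ * c (n - 0) * τ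
    rw [Nat.sub_zero]
    calc τ * (c n * τ * c n) = τ * c n * τ * c n := by group
      _ = c n * τ * c n * τ := h.tb
  | succ k ih =>
    have h1 := ih (by omega)
    have h2 : Commute (c (n - (k + 1))) (jj n c τ k) := h.jj1 (by omega) (by omega)
    have h3 : Commute (c (n - k)) (jj n c τ (k + 1 + 1)) := h.jj2 (by omega) (by omega) (by omega)
    have h4 : Commute (jj n c τ k) (jj n c τ (k + 1 + 1)) := by
      change Commute (jj n c τ k) (c (n - (k + 1)) * jj n c τ (k + 1) * c (n - (k + 1)))
      exact (h2.symm.mul_right h1).mul_right h2.symm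
    change Commute (c (n - k) * jj n c τ k * c (n - k)) _
    exact (h3.mul_left h4).mul_left h3

/-- (J4): `τ` commutes with the elements -/
theorem jj_tau {k : ℕ} (hk : k ≤ n + 1) : Commute τ (jj n c τ k) := by
  induction k with
  | zero => exact Commute.refl τ
  | succ k ih =>
    rcases Nat.eq_zero_or_pos k with rfl | h1
    · exact h.jj3 (k := 0) (by omega)
    · have h2 : Commute τ (c (n - k)) := h.tc _ (by omega)
      exact (h2.mul_right (ih (by omega))).mul_right h2

theorem jj4 {i k : ℕ} (hik : i < k) (hk : k ≤ n + 1) : Commute (jj n c τ i) (jj n c τ k) := by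
  induction i with
  | zero => exact h.jj_tau hk
  | succ i ih =>
    have h1 : Commute (c (n - i)) (jj n c τ k) := h.jj2 hk (by omega) (by omega)
    exact (h1.mul_left (ih (by omega))).mul_left h1

/-- (J5) -/
theorem ee_jj {i k : ℕ} (hik : i < k) (hk : k ≤ n + 1) : Commute (ee n c τ i) (jj n c τ k) := by
  induction i with
  | zero => exact h.jj_tau hk
  | succ i ih => exact (ih (by omega)).mul_left (h.jj4 hik hk)

theorem ee_tau {k : ℕ} (hk : k ≤ n + 1) : Commute τ (ee n c τ k) := by
  induction k with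
  | zero => exact Commute.refl τ
  | succ k ih => exact (ih (by omega)).mul_right (h.jj_tau hk)

/-- the generators commute with the products -/
theorem ee_c1 {j k : ℕ} (hk : k ≤ n) (hj : j < n - k) : Commute (c j) (ee n c τ k) := by
  induction k with
  | zero => exact (h.tc j (by omega)).symm
  | succ k ih => exact (ih (by omega) (by omega)).mul_right (h.jj1 hk hj)

theorem ee_c2 {j k : ℕ} (hk : k ≤ n + 1) (hj : n + 1 ≤ j + k) (hjn : j ≤ n) : Commute (c j) (ee n c τ k) := by
  induction k with
  | zero => omega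
  | succ k ih =>
    rcases Nat.eq_or_lt_of_le hj with h1 | h1
    · -- `j = n - k`
      have e1 : j = n - k := by omega
      have h2 := (h.jj3 (k := k) (by omega)).eq
      have h3 : c j * (jj n c τ k * jj n c τ (k + 1)) = jj n c τ k * jj n c τ (k + 1) * c j := by
        rw [e1]
        conv_lhs => rw [h2]
        change c (n - k) * (c (n - k) * jj n c τ k * c (n - k) * jj n c τ k) =
          jj n c τ k * (c (n - k) * jj n c τ k * c (n - k)) * c (n - k)
        have h4 : jj n c τ k * (c (n - k) * jj n c τ k * c (n - k)) = c (n - k) * jj n c τ k * c (n - k) * jj n c τ k := h2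
        have h5 : c (n - k) * (jj n c τ k * c (n - k) * jj n c τ k) = jj n c τ k * c (n - k) * jj n c τ k * c (n - k) := by
          calc c (n - k) * (jj n c τ k * c (n - k) * jj n c τ k) = c (n - k) * jj n c τ k * c (n - k) * jj n c τ k := by group
            _ = jj n c τ k * (c (n - k) * jj n c τ k * c (n - k)) := h4.symm
            _ = _ := by group
        calc c (n - k) * (c (n - k) * jj n c τ k * c (n - k) * jj n c τ k)
            = c (n - k) * (c (n - k) * (jj n c τ k * c (n - k) * jj n c τ k)) := by group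
          _ = c (n - k) * (jj n c τ k * c (n - k) * jj n c τ k * c (n - k)) := by rw [h5]
          _ = (c (n - k) * (jj n c τ k * c (n - k) * jj n c τ k)) * c (n - k) := by group
          _ = _ := by
            rw [h5]
            group
      rcases Nat.eq_zero_or_pos k with rfl | hk0
      · exact h3
      · obtain ⟨k, rfl⟩ : ∃ r, k = r + 1 := ⟨k - 1, by omega⟩
        have h6 : Commute (c j) (ee n c τ k) := h.ee_c1 (by omega) (by omega)
        have h7 : Commute (c j) (ee n c τ k * (jj n c τ (k + 1) * jj n c τ (k + 1 + 1))) := h6.mul_right h3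
        have h8 : ee n c τ (k + 1 + 1) = ee n c τ k * (jj n c τ (k + 1) * jj n c τ (k + 1 + 1)) := mul_assoc _ _ _
        rw [h8]
        exact h7
    · exact (ih (by omega) (by omega)).mul_right (h.jj2 hk (by omega) hjn)

/-- the central element -/
theorem cen_c {j : ℕ} (hj : j ≤ n) : Commute (c j) (ee n c τ (n + 1)) := h.ee_c2 le_rfl (by omega) hj

theorem cen_tau : Commute τ (ee n c τ (n + 1)) := h.ee_tau le_rfl

end Sys

namespace SysC

variable {n : ℕ} {c : ℕ → G} {τ t : G} (h : SysC n c τ t)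
include h

/-- (c), first part -/
theorem yy_c1 {i j : ℕ} (hij : i + 1 ≤ j) (hj : j ≤ n) : Commute (c j) (yy c t i) := by
  induction i with
  | zero => exact (h.tco j (by omega) hj).symm
  | succ i ih =>
    have h1 : Commute (c j) (c i) := (h.toSys.com (by omega) hj).symm
    exact (h1.inv_right.mul_right (ih (by omega))).mul_right h1

/-- (c), second part -/
theorem yy_c2 {i j : ℕ} (hij : j + 2 ≤ i) (hi : i ≤ n + 1) : Commute (c j) (yy c t i) := by
  induction i with
  | zero => omega
  | succ i ih =>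
    rcases Nat.eq_or_lt_of_le hij with h1 | h1
    · obtain ⟨rfl⟩ : i = j + 1 := by omega
      have h2 := h.br j (by omega)
      have h3 : Commute (c (j + 1)) (yy c t j) := h.yy_c1 le_rfl (by omega)
      change c j * ((c (j + 1))⁻¹ * ((c j)⁻¹ * yy c t j * c j) * c (j + 1)) =
        (c (j + 1))⁻¹ * ((c j)⁻¹ * yy c t j * c j) * c (j + 1) * c j
      generalize c (j + 1) = b at *
      generalize c j = a at *
      generalize yy c t j = y at *
      have h4 : a * b⁻¹ * a⁻¹ = b⁻¹ * a⁻¹ * b := by
        rw [mul_inv_eq_iff_eq_mul, mul_inv_eq_iff_eq_mul]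
        calc a = b⁻¹ * a⁻¹ * (a * b * a) := by group
          _ = b⁻¹ * a⁻¹ * (b * a * b) := by rw [h2]
          _ = _ := by group
      have h5 : a * b * a = b * a * b := h2
      calc a * (b⁻¹ * (a⁻¹ * y * a) * b) = (a * b⁻¹ * a⁻¹) * y * a * b := by group
        _ = b⁻¹ * a⁻¹ * (b * y) * a * b := by
          rw [h4]
          group
        _ = b⁻¹ * a⁻¹ * y * (b * a * b) := by
          rw [h3.eq]
          group
        _ = b⁻¹ * a⁻¹ * y * (a * b * a) := by rw [h5]
        _ = b⁻¹ * (a⁻¹ * y * a) * b * a := by group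
    · have h2 : Commute (c j) (c i) := h.toSys.com (by omega) (by omega)
      exact (h2.inv_right.mul_right (ih (by omega) (by omega))).mul_right h2

/-- (b) -/
theorem yy_b {i : ℕ} (hi : i ≤ n) : c i * yy c t i * (c i)⁻¹ = (yy c t i)⁻¹ * yy c t (i + 1) * yy c t i := by
  induction i with
  | zero =>
    change c 0 * t * (c 0)⁻¹ = t⁻¹ * ((c 0)⁻¹ * t * c 0) * t
    rw [mul_inv_eq_iff_eq_mul]
    calc c 0 * t = t⁻¹ * (c 0)⁻¹ * (c 0 * t * c 0 * t) := by group
      _ = t⁻¹ * (c 0)⁻¹ * (t * c 0 * t * c 0) := by rw [h.t4]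
      _ = _ := by group
  | succ i ih =>
    have h1 := ih (by omega)
    have h2 := h.br i hi
    have h3 : Commute (c (i + 1)) (yy c t i) := h.yy_c1 le_rfl (by omega)
    -- conjugation by `(c (i+1) c i)⁻¹`
    have e1 : (c (i + 1) * c i)⁻¹ * c i * (c (i + 1) * c i) = c (i + 1) := by
      calc (c (i + 1) * c i)⁻¹ * c i * (c (i + 1) * c i) = (c (i + 1) * c i)⁻¹ * (c i * c (i + 1) * c i) := by group
        _ = (c (i + 1) * c i)⁻¹ * (c (i + 1) * c i * c (i + 1)) := by rw [h2]
        _ = _ := by group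
    have e2 : (c (i + 1) * c i)⁻¹ * yy c t i * (c (i + 1) * c i) = yy c t (i + 1) := by
      calc (c (i + 1) * c i)⁻¹ * yy c t i * (c (i + 1) * c i) =
          (c i)⁻¹ * (c (i + 1))⁻¹ * (yy c t i * c (i + 1)) * c i := by group
        _ = (c i)⁻¹ * (c (i + 1))⁻¹ * (c (i + 1) * yy c t i) * c i := by rw [h3.eq]
        _ = (c i)⁻¹ * yy c t i * c i := by group
        _ = _ := (yy_succ c t i).symm
    have e3 : (c (i + 1) * c i)⁻¹ * yy c t (i + 1) * (c (i + 1) * c i) = yy c t (i + 1 + 1) := by
      rw [yy_succ c t (i + 1), yy_succ c t i]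
      calc (c (i + 1) * c i)⁻¹ * ((c i)⁻¹ * yy c t i * c i) * (c (i + 1) * c i) =
          (c i * c (i + 1) * c i)⁻¹ * yy c t i * (c i * c (i + 1) * c i) := by group
        _ = (c (i + 1) * c i * c (i + 1))⁻¹ * yy c t i * (c (i + 1) * c i * c (i + 1)) := by rw [h2]
        _ = (c (i + 1))⁻¹ * (c i)⁻¹ * (c (i + 1))⁻¹ * (yy c t i * c (i + 1)) * c i * c (i + 1) := by group
        _ = (c (i + 1))⁻¹ * (c i)⁻¹ * (c (i + 1))⁻¹ * (c (i + 1) * yy c t i) * c i * c (i + 1) := by rw [h3.eq]
        _ = _ := by group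
    have e4 := congrArg (fun z => (c (i + 1) * c i)⁻¹ * z * (c (i + 1) * c i)) h1
    calc c (i + 1) * yy c t (i + 1) * (c (i + 1))⁻¹ =
        ((c (i + 1) * c i)⁻¹ * c i * (c (i + 1) * c i)) * ((c (i + 1) * c i)⁻¹ * yy c t i * (c (i + 1) * c i)) *
        ((c (i + 1) * c i)⁻¹ * c i * (c (i + 1) * c i))⁻¹ := by rw [e1, e2]
      _ = (c (i + 1) * c i)⁻¹ * (c i * yy c t i * (c i)⁻¹) * (c (i + 1) * c i) := by group
      _ = (c (i + 1) * c i)⁻¹ * ((yy c t i)⁻¹ * yy c t (i + 1) * yy c t i) * (c (i + 1) * c i) := e4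
      _ = ((c (i + 1) * c i)⁻¹ * yy c t i * (c (i + 1) * c i))⁻¹ *
          ((c (i + 1) * c i)⁻¹ * yy c t (i + 1) * (c (i + 1) * c i)) *
          ((c (i + 1) * c i)⁻¹ * yy c t i * (c (i + 1) * c i)) := by group
      _ = _ := by rw [e2, e3]

/-- (e) -/
theorem yy_tau {i : ℕ} (hi : i ≤ n) : Commute τ (yy c t i) := by
  induction i with
  | zero => exact h.tt.symm
  | succ i ih =>
    have h1 : Commute τ (c i) := h.tc i (by omega)
    exact (h1.inv_right.mul_right (ih (by omega))).mul_right h1

/-- (f) -/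
theorem pp_tau {i : ℕ} (hi : i ≤ n) : Commute τ (pp c t i) := by
  induction i with
  | zero => exact h.tt.symm
  | succ i ih => exact (h.yy_tau hi).mul_right (ih (by omega))

theorem pp_c1 {i j : ℕ} (hij : i + 1 ≤ j) (hj : j ≤ n) : Commute (c j) (pp c t i) := by
  induction i with
  | zero => exact (h.tco j (by omega) hj).symm
  | succ i ih => exact (h.yy_c1 hij hj).mul_right (ih (by omega))

/-- (d) -/
theorem pp_c2 {i j : ℕ} (hij : j + 1 ≤ i) (hi : i ≤ n + 1) : Commute (c j) (pp c t i) := by
  induction i with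
  | zero => omega
  | succ i ih =>
    rcases Nat.eq_or_lt_of_le hij with h1 | h1
    · obtain ⟨rfl⟩ : j = i := by omega
      have h2 : Commute (c j) (yy c t (j + 1) * yy c t j) := by
        have h3 := conj_yy_succ c t j
        have h4 := h.yy_b (i := j) (by omega)
        rw [mul_inv_eq_iff_eq_mul] at h3 h4
        calc c j * (yy c t (j + 1) * yy c t j) = (c j * yy c t (j + 1)) * yy c t j := by group
          _ = yy c t j * (c j * yy c t j) := by
            rw [h3]
            group
          _ = yy c t (j + 1) * yy c t j * c j := by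
            rw [h4]
            group
      rcases Nat.eq_zero_or_pos j with rfl | hj
      · exact h2
      · obtain ⟨j, rfl⟩ : ∃ r, j = r + 1 := ⟨j - 1, by omega⟩
        have h5 : Commute (c (j + 1)) (pp c t j) := h.pp_c1 le_rfl (by omega)
        have h6 : pp c t (j + 1 + 1) = yy c t (j + 1 + 1) * yy c t (j + 1) * pp c t j := (mul_assoc _ _ _).symm
        rw [h6]
        exact h2.mul_right h5
    · exact (h.yy_c2 (by omega) hi).mul_right (ih (by omega) (by omega))

theorem jj_t {k : ℕ} (hk : k ≤ n) : Commute t (jj n c τ k) := by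
  induction k with
  | zero => exact h.tt
  | succ k ih =>
    have h1 : Commute t (c (n - k)) := h.tco _ (by omega) (by omega)
    exact (h1.mul_right (ih (by omega))).mul_right h1

theorem ee_t {k : ℕ} (hk : k ≤ n) : Commute t (ee n c τ k) := by
  induction k with
  | zero => exact h.tt
  | succ k ih => exact (ih (by omega)).mul_right (h.jj_t hk)

/-- the conjugate of `t` by the central element of the group of type `B` -/
theorem cen_t : ee n c τ (n + 1) * t * (ee n c τ (n + 1))⁻¹ = jj n c τ (n + 1) * t * (jj n c τ (n + 1))⁻¹ := by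
  have h1 : Commute t (ee n c τ n) := h.ee_t le_rfl
  have h2 : Commute (ee n c τ n) (jj n c τ (n + 1)) := h.toSys.ee_jj (by omega) le_rfl
  change ee n c τ n * jj n c τ (n + 1) * t * (ee n c τ n * jj n c τ (n + 1))⁻¹ = _
  rw [h2.eq]
  calc jj n c τ (n + 1) * ee n c τ n * t * (jj n c τ (n + 1) * ee n c τ n)⁻¹ =
      jj n c τ (n + 1) * (ee n c τ n * t) * (ee n c τ n)⁻¹ * (jj n c τ (n + 1))⁻¹ := by group
    _ = jj n c τ (n + 1) * (t * ee n c τ n) * (ee n c τ n)⁻¹ * (jj n c τ (n + 1))⁻¹ := by rw [h1.eq]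
    _ = _ := by group

end SysC

/-- the products `c 0 ⋯ c (k - 1)` and `c (k - 1) ⋯ c 0` -/
def rr (c : ℕ → G) : ℕ → G
  | 0 => 1
  | k + 1 => rr c k * c k

/-- the products in the other order -/
def ll (c : ℕ → G) : ℕ → G
  | 0 => 1
  | k + 1 => c k * ll c k

theorem yy_rr (c : ℕ → G) (t : G) (k : ℕ) : yy c t k = (rr c k)⁻¹ * t * rr c k := by
  induction k with
  | zero => simp [yy, rr]
  | succ k ih =>
    rw [yy_succ, ih, rr]
    group

/-- `c (n - k + 1) ⋯ c n`, see `jj_eq` -/
theorem jj_eq (n : ℕ) (c : ℕ → G) (τ : G) (k : ℕ) (hk : k ≤ n + 1) :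
    rr c (n + 1 - k) * jj n c τ k * ll c (n + 1 - k) = rr c (n + 1) * τ * ll c (n + 1) := by
  induction k with
  | zero => rfl
  | succ k ih =>
    rw [← ih (by omega)]
    have e1 : n + 1 - k = (n - k) + 1 := by omega
    have e2 : n + 1 - (k + 1) = n - k := by omega
    rw [e1, e2]
    change rr c (n - k) * (c (n - k) * jj n c τ k * c (n - k)) * ll c (n - k) =
      rr c (n - k) * c (n - k) * jj n c τ k * (c (n - k) * ll c (n - k))
    group

theorem jj_last (n : ℕ) (c : ℕ → G) (τ : G) : jj n c τ (n + 1) = rr c (n + 1) * τ * ll c (n + 1) := by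
  rw [← jj_eq n c τ (n + 1) le_rfl, Nat.sub_self]
  simp [rr, ll]

namespace SysC

variable {n : ℕ} {c : ℕ → G} {τ t : G} (h : SysC n c τ t)
include h

theorem cen_rr {k : ℕ} (hk : k ≤ n + 1) : Commute (rr c k) (ee n c τ (n + 1)) := by
  induction k with
  | zero => exact Commute.one_left _
  | succ k ih => exact (ih (by omega)).mul_left (h.toSys.cen_c (by omega))

theorem ll_t {k : ℕ} (hk : k ≤ n) : ll c (k + 1) * t * (ll c (k + 1))⁻¹ = (pp c t k)⁻¹ * yy c t (k + 1) * pp c t k := by
  induction k with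
  | zero =>
    have h1 := h.yy_b (i := 0) (by omega)
    simp only [ll, mul_one]
    exact h1
  | succ k ih =>
    have h1 := ih (by omega)
    have h2 : Commute (c (k + 1)) (pp c t k) := h.pp_c1 le_rfl (by omega)
    have h3 := h.yy_b (i := k + 1) (by omega)
    have h4 : c (k + 1) * (pp c t k)⁻¹ = (pp c t k)⁻¹ * c (k + 1) := h2.inv_right.eq
    have h5 : pp c t k * (c (k + 1))⁻¹ = (c (k + 1))⁻¹ * pp c t k := h2.inv_left.eq.symm
    calc ll c (k + 1 + 1) * t * (ll c (k + 1 + 1))⁻¹ =
        c (k + 1) * (ll c (k + 1) * t * (ll c (k + 1))⁻¹) * (c (k + 1))⁻¹ := by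
          change (c (k + 1) * ll c (k + 1)) * t * (c (k + 1) * ll c (k + 1))⁻¹ = _
          group
      _ = (c (k + 1) * (pp c t k)⁻¹) * yy c t (k + 1) * (pp c t k * (c (k + 1))⁻¹) := by
        rw [h1]
        group
      _ = (pp c t k)⁻¹ * (c (k + 1) * yy c t (k + 1) * (c (k + 1))⁻¹) * pp c t k := by
        rw [h4, h5]
        group
      _ = _ := by
        rw [h3]
        change _ = (yy c t (k + 1) * pp c t k)⁻¹ * _ * (yy c t (k + 1) * pp c t k)
        group

/-- the main identity -/
theorem key : τ * yy c t (n + 1) * τ⁻¹ =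
    pp c t n * (ee n c τ (n + 1) * yy c t (n + 1) * (ee n c τ (n + 1))⁻¹) * (pp c t n)⁻¹ := by
  have h1 := h.cen_t
  have h2 : Commute (rr c (n + 1)) (ee n c τ (n + 1)) := h.cen_rr le_rfl
  have h3 := h.ll_t (k := n) le_rfl
  have h4 : Commute τ (pp c t n) := h.pp_tau le_rfl
  rw [jj_last] at h1
  have h5 : ee n c τ (n + 1) * yy c t (n + 1) * (ee n c τ (n + 1))⁻¹ =
      τ * (ll c (n + 1) * t * (ll c (n + 1))⁻¹) * τ⁻¹ := by
    have h6 : ee n c τ (n + 1) * (rr c (n + 1))⁻¹ = (rr c (n + 1))⁻¹ * ee n c τ (n + 1) := h2.inv_left.eq.symm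
    have h7 : rr c (n + 1) * (ee n c τ (n + 1))⁻¹ = (ee n c τ (n + 1))⁻¹ * rr c (n + 1) := h2.inv_right.eq
    rw [yy_rr]
    calc ee n c τ (n + 1) * ((rr c (n + 1))⁻¹ * t * rr c (n + 1)) * (ee n c τ (n + 1))⁻¹ =
        (ee n c τ (n + 1) * (rr c (n + 1))⁻¹) * t * (rr c (n + 1) * (ee n c τ (n + 1))⁻¹) := by group
      _ = (rr c (n + 1))⁻¹ * (ee n c τ (n + 1) * t * (ee n c τ (n + 1))⁻¹) * rr c (n + 1) := by
        rw [h6, h7]
        group
      _ = _ := by
        rw [h1]
        group
  rw [h5, h3]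
  have h8 : τ * (pp c t n)⁻¹ = (pp c t n)⁻¹ * τ := h4.inv_right.eq
  have h9 : pp c t n * τ⁻¹ = τ⁻¹ * pp c t n := h4.inv_left.eq.symm
  calc τ * yy c t (n + 1) * τ⁻¹ = pp c t n * ((pp c t n)⁻¹ * τ) * yy c t (n + 1) * (τ⁻¹ * pp c t n) * (pp c t n)⁻¹ := by
        group
    _ = pp c t n * (τ * (pp c t n)⁻¹) * yy c t (n + 1) * (pp c t n * τ⁻¹) * (pp c t n)⁻¹ := by rw [h8, h9]
    _ = _ := by group

end SysC

end Pool.Agent.H52.CA
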